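import Pool.Agent.Helper79.EE.GrG

/-!
# UI, leaf U3: growth of the iterates of the tensor powers over `ℚ[X]` (helper4)
-/

open Polynomial

namespace Pool.Agent.Helper79.UI

open Pool.Agent.Helper79.GC Pool.Agent.Helper79.GX Pool.Agent.Helper79.AA Pool.Agent.Helper79.DD
  Pool.Agent.Helper79.CU Pool.Agent.Helper37.GP Pool.Agent.Helper64.Per

namespace U3

/-- The recursion of the divided iterates. -/
theorem bf_succ {β : Type} [Fintype β] [DecidableEq β] (T : ℚ[X]) (A : Matrix β β ℚ[X]) (n : ℕ)
    (i j : β) : ((n + 1 : ℕ) : ℚ[X]) * betaF T A (n + 1) i j =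
      T * derivative (betaF T A n i j) - (n : ℚ[X]) * derivative T * betaF T A n i j +
        ∑ l, betaF T A n i l * A l j := by
  have h0 : ((n + 1 : ℕ) : ℚ[X]) * C (((n : ℚ) + 1)⁻¹) = 1 := by
    have h1 : ((n + 1 : ℕ) : ℚ[X]) = C ((n : ℚ) + 1) := by
      rw [← Polynomial.C_eq_natCast]
      push_cast
      rfl
    rw [h1, ← C_mul, mul_inv_cancel₀ (by positivity), C_1]
  rw [betaF]
  simp only [Matrix.smul_apply, Matrix.add_apply, Matrix.sub_apply, Matrix.map_apply,
    Matrix.mul_apply, smul_eq_mul]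
  rw [← mul_assoc, h0, one_mul]

/-- The matrix of a tensor power, first factor. -/
theorem tens_succ' {R ι : Type} [CommRing R] [DecidableEq ι] (r : ℕ) (a : Matrix ι ι R)
    (I J : Fin (r + 1) → ι) :
    tens (r + 1) a I J = (if Fin.tail I = Fin.tail J then a (I 0) (J 0) else 0) +
      (if I 0 = J 0 then tens r a (Fin.tail I) (Fin.tail J) else 0) := by
  unfold tens
  rw [Fin.sum_univ_succ]
  congr 1
  · congr 1
    rw [eq_iff_iff]
    constructor
    · intro h
      funext s
      exact h s.succ (Fin.succ_ne_zero s)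
    · intro h s hs
      obtain ⟨s', rfl⟩ := Fin.exists_succ_eq.2 hs
      exact congrFun h s'
  · by_cases h0 : I 0 = J 0
    · rw [if_pos h0]
      refine Finset.sum_congr rfl fun s _ => ?_
      congr 1
      rw [eq_iff_iff]
      constructor
      · intro h s' hs'
        exact h s'.succ fun h1 => hs' (Fin.succ_injective _ h1)
      · intro h s' hs'
        rcases Fin.eq_zero_or_eq_succ s' with rfl | ⟨s'', rfl⟩
        · exact h0
        · exact h s'' fun h1 => hs' (by rw [h1])
    · rw [if_neg h0]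
      refine Finset.sum_eq_zero fun s _ => ?_
      rw [if_neg]
      intro h
      exact h0 (h 0 (Fin.succ_ne_zero s).symm)

/-- The divided iterates of a tensor power are products. -/
theorem bf_tens {β : Type} [Fintype β] [DecidableEq β] (T : ℚ[X]) (M : Matrix β β ℚ[X]) (r n : ℕ)
    (I J : Fin (r + 1) → β) : betaF T (tens (r + 1) M) n I J =
      ∑ p ∈ Finset.HasAntidiagonal.antidiagonal n, betaF T M p.1 (I 0) (J 0) *
        betaF T (tens r M) p.2 (Fin.tail I) (Fin.tail J) := by
  induction n generalizing J with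
  | zero =>
    rw [Finset.Nat.antidiagonal_zero, Finset.sum_singleton]
    change (1 : Matrix (Fin (r + 1) → β) (Fin (r + 1) → β) ℚ[X]) I J =
      (1 : Matrix β β ℚ[X]) (I 0) (J 0) *
        (1 : Matrix (Fin r → β) (Fin r → β) ℚ[X]) (Fin.tail I) (Fin.tail J)
    rw [Matrix.one_apply, Matrix.one_apply, Matrix.one_apply]
    by_cases h : I = J
    · subst h
      simp
    · rw [if_neg h]
      by_cases h0 : I 0 = J 0
      · have h1 : Fin.tail I ≠ Fin.tail J := by
          intro h1
          apply h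
          rw [← Fin.cons_self_tail I, ← Fin.cons_self_tail J, h0, h1]
        rw [if_neg h1, mul_zero]
      · rw [if_neg h0, zero_mul]
  | succ n ih =>
    have h0 : ((n + 1 : ℕ) : ℚ[X]) ≠ 0 := Nat.cast_ne_zero.2 (Nat.succ_ne_zero n)
    apply mul_left_cancel₀ h0
    rw [bf_succ, ih, map_sum]
    -- the sum over the tensor indices
    have e1 : ∑ L : Fin (r + 1) → β, betaF T (tens (r + 1) M) n I L * tens (r + 1) M L J =
        ∑ p ∈ Finset.HasAntidiagonal.antidiagonal n,
          ((∑ l, betaF T M p.1 (I 0) l * M l (J 0)) *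
            betaF T (tens r M) p.2 (Fin.tail I) (Fin.tail J) +
          betaF T M p.1 (I 0) (J 0) *
            ∑ L', betaF T (tens r M) p.2 (Fin.tail I) L' * tens r M L' (Fin.tail J)) := by
      rw [← (Fin.consEquiv (fun _ : Fin (r + 1) => β)).sum_comp, Fintype.sum_prod_type]
      have e2 : ∀ (l : β) (L' : Fin r → β),
          betaF T (tens (r + 1) M) n I (Fin.consEquiv (fun _ : Fin (r + 1) => β) (l, L')) *
            tens (r + 1) M (Fin.consEquiv (fun _ : Fin (r + 1) => β) (l, L')) J =
          ∑ p ∈ Finset.HasAntidiagonal.antidiagonal n,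
            ((if L' = Fin.tail J then betaF T M p.1 (I 0) l * M l (J 0) *
                betaF T (tens r M) p.2 (Fin.tail I) L' else 0) +
              (if l = J 0 then betaF T M p.1 (I 0) l *
                (betaF T (tens r M) p.2 (Fin.tail I) L' * tens r M L' (Fin.tail J))
                  else 0)) := by
        intro l L'
        have hc : Fin.consEquiv (fun _ : Fin (r + 1) => β) (l, L') =
            (Fin.cons l L' : Fin (r + 1) → β) := rfl
        rw [hc, ih, tens_succ', Finset.sum_mul]
        refine Finset.sum_congr rfl fun p _ => ?_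
        rw [Fin.cons_zero, Fin.tail_cons]
        split_ifs <;> ring
      simp only [e2]
      rw [Finset.sum_congr rfl fun l _ => Finset.sum_comm, Finset.sum_comm]
      refine Finset.sum_congr rfl fun p _ => ?_
      simp only [Finset.sum_add_distrib]
      congr 1
      · rw [Finset.sum_mul]
        refine Finset.sum_congr rfl fun l _ => ?_
        rw [Finset.sum_ite_eq' Finset.univ (Fin.tail J)]
        simp
      · rw [Finset.sum_comm, Finset.mul_sum]
        refine Finset.sum_congr rfl fun L' _ => ?_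
        rw [Finset.sum_ite_eq' Finset.univ (J 0)]
        simp
    rw [e1, Finset.mul_sum, Finset.mul_sum, ← Finset.sum_sub_distrib, ← Finset.sum_add_distrib]
    have e3 : ∀ p ∈ Finset.HasAntidiagonal.antidiagonal n,
        T * derivative (betaF T M p.1 (I 0) (J 0) *
          betaF T (tens r M) p.2 (Fin.tail I) (Fin.tail J)) -
        (n : ℚ[X]) * derivative T * (betaF T M p.1 (I 0) (J 0) *
          betaF T (tens r M) p.2 (Fin.tail I) (Fin.tail J)) +
        ((∑ l, betaF T M p.1 (I 0) l * M l (J 0)) *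
            betaF T (tens r M) p.2 (Fin.tail I) (Fin.tail J) +
          betaF T M p.1 (I 0) (J 0) *
            ∑ L', betaF T (tens r M) p.2 (Fin.tail I) L' * tens r M L' (Fin.tail J)) =
        ((p.1 + 1 : ℕ) : ℚ[X]) * betaF T M (p.1 + 1) (I 0) (J 0) *
          betaF T (tens r M) p.2 (Fin.tail I) (Fin.tail J) +
        betaF T M p.1 (I 0) (J 0) *
          (((p.2 + 1 : ℕ) : ℚ[X]) * betaF T (tens r M) (p.2 + 1) (Fin.tail I) (Fin.tail J)) := by
      intro p hp
      have hn : (n : ℚ[X]) = (p.1 : ℚ[X]) + (p.2 : ℚ[X]) := by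
        rw [← Finset.HasAntidiagonal.mem_antidiagonal.1 hp]
        push_cast
        rfl
      rw [bf_succ, bf_succ, derivative_mul, hn]
      ring
    rw [Finset.sum_congr rfl e3]
    -- the combinatorial identity
    set f : ℕ → ℚ[X] := fun j => betaF T M j (I 0) (J 0) with hf
    set g : ℕ → ℚ[X] := fun j => betaF T (tens r M) j (Fin.tail I) (Fin.tail J) with hg
    have key : ∑ p ∈ Finset.HasAntidiagonal.antidiagonal n,
        (((p.1 + 1 : ℕ) : ℚ[X]) * f (p.1 + 1) * g p.2 +
          f p.1 * (((p.2 + 1 : ℕ) : ℚ[X]) * g (p.2 + 1))) =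
        ((n + 1 : ℕ) : ℚ[X]) *
          ∑ p ∈ Finset.HasAntidiagonal.antidiagonal (n + 1), f p.1 * g p.2 := by
      have h1 : ((n + 1 : ℕ) : ℚ[X]) * ∑ p ∈ Finset.HasAntidiagonal.antidiagonal (n + 1),
          f p.1 * g p.2 = ∑ p ∈ Finset.HasAntidiagonal.antidiagonal (n + 1),
            ((p.1 : ℚ[X]) * f p.1 * g p.2 + f p.1 * ((p.2 : ℚ[X]) * g p.2)) := by
        rw [Finset.mul_sum]
        refine Finset.sum_congr rfl fun p hp => ?_
        have h2 : p.1 + p.2 = n + 1 := Finset.HasAntidiagonal.mem_antidiagonal.1 hp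
        rw [← h2]
        push_cast
        ring
      rw [h1, Finset.sum_add_distrib, Finset.sum_add_distrib]
      congr 1
      · rw [Finset.Nat.antidiagonal_succ, Finset.sum_cons, Finset.sum_map]
        simp
      · rw [Finset.Nat.antidiagonal_succ', Finset.sum_cons, Finset.sum_map]
        simp
    exact key

/-- The values of the divided iterates of a tensor power. -/
theorem gm_tens {β : Type} [Fintype β] [DecidableEq β] (T : ℚ[X]) (M : Matrix β β ℚ[X]) (r n : ℕ)
    (x : ℚ) (I J : Fin (r + 1) → β) : gm T (tens (r + 1) M) n x I J =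
      ∑ p ∈ Finset.HasAntidiagonal.antidiagonal n, gm T M p.1 x (I 0) (J 0) *
        gm T (tens r M) p.2 x (Fin.tail I) (Fin.tail J) := by
  simp only [gm, Matrix.of_apply]
  rw [bf_tens, eval_finset_sum, Finset.sum_div]
  refine Finset.sum_congr rfl fun p hp => ?_
  rw [eval_mul, ← Finset.HasAntidiagonal.mem_antidiagonal.1 hp, pow_add, mul_div_mul_comm]

theorem tens_one {β : Type} [DecidableEq β] (M : Matrix β β ℚ[X]) :
    tens 1 M = M.submatrix (Equiv.funUnique (Fin 1) β) (Equiv.funUnique (Fin 1) β) := by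
  funext I J
  change tens 1 M I J = M (I 0) (J 0)
  unfold tens
  rw [Fin.sum_univ_one, if_pos]
  intro s' hs'
  exact absurd (Subsingleton.elim _ _) hs'

/-- The growth condition is monotone in the rate. -/
theorem gr_mono {ι : Type} [Fintype ι] [DecidableEq ι] {T : ℚ[X]} {A : Matrix ι ι ℚ[X]} {u : ℚ}
    {Q Q' : ℝ} (h : Gr T A u Q) (h0 : 0 ≤ Q) (hQ : Q ≤ Q') : Gr T A u Q' := by
  obtain ⟨C, hC⟩ := h
  have hC0 : 0 ≤ C := by
    obtain ⟨q, hq0, hq, -⟩ := hC 0
    rw [pow_zero, mul_one] at hq
    exact le_trans (Nat.cast_nonneg _) hq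
  refine ⟨C, fun J => ?_⟩
  obtain ⟨q, hq0, hq, hj⟩ := hC J
  exact ⟨q, hq0, hq.trans (mul_le_mul_of_nonneg_left (pow_le_pow_left₀ h0 hQ _) hC0),
    fun j hjJ a b => ⟨(hj j hjJ a b).1, (hj j hjJ a b).2.trans
      (mul_le_mul_of_nonneg_left (pow_le_pow_left₀ h0 hQ _) hC0)⟩⟩

end U3

/-- U3: growth for the tensor powers. -/
theorem gr_tensQ {β : Type} [Fintype β] [DecidableEq β] {T : ℚ[X]} {M : Matrix β β ℚ[X]} {x : ℚ}
    {Q : ℝ} (hx : T.eval x ≠ 0) (hQ : 1 ≤ Q) (h : Gr T M x Q) (r : ℕ) :
    Gr T (tens (r + 1) M) x ((2 * Q) ^ (r + 1)) := by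
  have _ := hx
  induction r with
  | zero =>
    have h2 := EE.gr_submatrix (Equiv.funUnique (Fin 1) β) h
    rw [← U3.tens_one] at h2
    refine U3.gr_mono h2 (by linarith) ?_
    rw [zero_add, pow_one]
    linarith
  | succ r ih =>
    have hQ2 : Q ≤ (2 * Q) ^ (r + 1) := by
      calc Q ≤ (2 * Q) ^ 1 := by rw [pow_one]; linarith
        _ ≤ (2 * Q) ^ (r + 1) := pow_le_pow_right₀ (by linarith) (by omega)
    have h2 := EE.gr_prod (S := Unit) hQ hQ2 h ih (A₃ := tens (r + 1 + 1) M)
      (fun I _ _ => I 0) (fun _ J _ => J 0) (fun I _ _ => Fin.tail I) (fun _ J _ => Fin.tail J)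
      (fun _ _ _ => 1) (fun n I J => by
        rw [U3.gm_tens]
        refine Finset.sum_congr rfl fun p _ => ?_
        simp)
    rw [pow_succ]
    exact h2

end Pool.Agent.Helper79.UI
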